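import Mathlib

/-! HL-HW, algebraic part. -/

set_option autoImplicit false

namespace Pool.Agent.W683.HL

open Polynomial IntermediateField

/-- independence of `1, z, z²` -/
theorem indep (x y : ℤ) (z : ℝ) (hz : z ^ 3 - 3 * x * z + 2 * y = 0)
    (hno : ∀ r : ℚ, r ^ 3 - 3 * x * r + 2 * y ≠ 0) (p q r : ℚ)
    (h : (p : ℝ) + q * z + r * z ^ 2 = 0) : p = 0 ∧ q = 0 ∧ r = 0 := by
  have hlin : ∀ u v : ℚ, (u : ℝ) + v * z = 0 → u = 0 ∧ v = 0 := by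
    intro u v huv
    by_cases hv : v = 0
    · subst hv
      simp only [Rat.cast_zero, zero_mul, add_zero] at huv
      exact ⟨by exact_mod_cast huv, rfl⟩
    · exfalso
      have hvR : (v : ℝ) ≠ 0 := by exact_mod_cast hv
      have hz' : z = ((-(u / v) : ℚ) : ℝ) := by
        push_cast
        field_simp
        linarith
      apply hno (-(u / v))
      rw [hz'] at hz
      exact_mod_cast hz
  by_cases hr : r = 0
  · subst hr
    simp only [Rat.cast_zero, zero_mul, add_zero] at h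
    obtain ⟨h1, h2⟩ := hlin p q h
    exact ⟨h1, h2, rfl⟩
  · exfalso
    have hrR : (r : ℝ) ≠ 0 := by exact_mod_cast hr
    obtain ⟨s, hs⟩ : ∃ s : ℚ, s = -(q / r) := ⟨_, rfl⟩
    obtain ⟨t, ht⟩ : ∃ t : ℚ, t = -(p / r) := ⟨_, rfl⟩
    have hz2 : z ^ 2 = s * z + t := by
      rw [hs, ht]
      push_cast
      field_simp
      linarith
    have h3 : (((s * t + 2 * y : ℚ)) : ℝ) + ((s ^ 2 + t - 3 * x : ℚ) : ℝ) * z = 0 := by
      push_cast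
      have : z ^ 3 = (s ^ 2 + t) * z + s * t := by
        linear_combination (z + s) * hz2
      rw [this] at hz
      linarith
    obtain ⟨h4, h5⟩ := hlin _ _ h3
    apply hno (-s)
    have e1 : t = 3 * x - s ^ 2 := by linarith
    have e2 : s * t = -(2 * y) := by linarith
    calc (-s) ^ 3 - 3 * x * (-s) + 2 * y = s * (3 * x - s ^ 2) + 2 * y := by ring
      _ = s * t + 2 * y := by rw [e1]
      _ = 0 := h4

/-- bounded denominators -/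
theorem denom (x0 y0 : ℤ) (z0 : ℝ) (hz0 : z0 ^ 3 - 3 * x0 * z0 + 2 * y0 = 0) :
    ∃ D : ℤ, D ≠ 0 ∧ ∀ z : ℝ, z ∈ ℚ⟮z0⟯ → IsIntegral ℤ z →
      ∃ a b c : ℤ, (D : ℝ) * z = a + b * z0 + c * z0 ^ 2 := by
  have hint : IsIntegral ℤ z0 := by
    refine ⟨X ^ 3 - C (3 * x0) * X + C (2 * y0), ?_, ?_⟩
    · monicity!
    · simp only [eval₂_add, eval₂_sub, eval₂_mul, eval₂_pow, eval₂_X, eval₂_C]
      push_cast
      simpa using hz0
  have hQ : IsIntegral ℚ z0 := hint.tower_top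
  have : FiniteDimensional ℚ ℚ⟮z0⟯ := IntermediateField.adjoin.finiteDimensional hQ
  set pb := IntermediateField.adjoin.powerBasis hQ with hpb
  have hgen : (pb.gen : ℝ) = z0 := by
    rw [hpb, IntermediateField.adjoin.powerBasis_gen]
    rfl
  have hinj : Function.Injective (algebraMap ℚ⟮z0⟯ ℝ) := (algebraMap ℚ⟮z0⟯ ℝ).injective
  have hgint : IsIntegral ℤ pb.gen := by
    have h1 : IsIntegral ℤ (algebraMap ℚ⟮z0⟯ ℝ pb.gen) := by
      show IsIntegral ℤ (pb.gen : ℝ)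
      rw [hgen]
      exact hint
    exact (isIntegral_algebraMap_iff hinj).1 h1
  set Δ : ℚ := Algebra.discr ℚ pb.basis with hΔ
  have hΔ0 : Δ ≠ 0 := (Algebra.discr_isUnit_of_basis ℚ pb.basis).ne_zero
  refine ⟨Δ.num, Rat.num_ne_zero.2 hΔ0, fun z hz hzi => ?_⟩
  have hz2 : IsIntegral ℤ (⟨z, hz⟩ : ℚ⟮z0⟯) := by
    have h1 : IsIntegral ℤ (algebraMap ℚ⟮z0⟯ ℝ ⟨z, hz⟩) := hzi
    exact (isIntegral_algebraMap_iff hinj).1 h1
  have hmem := Algebra.discr_mul_isIntegral_mem_adjoin ℚ (R := ℤ) hgint hz2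
  rw [Algebra.adjoin_singleton_eq_range_aeval] at hmem
  obtain ⟨P, hP⟩ := hmem
  have hP2 : aeval z0 P = (Δ : ℝ) * z := by
    have h1 := congrArg (algebraMap ℚ⟮z0⟯ ℝ) hP
    have h2 : algebraMap ℚ⟮z0⟯ ℝ (aeval pb.gen P) = aeval (algebraMap ℚ⟮z0⟯ ℝ pb.gen) P :=
      (Polynomial.aeval_algebraMap_apply ℝ pb.gen P).symm
    have h3 : algebraMap ℚ⟮z0⟯ ℝ pb.gen = z0 := hgen
    rw [AlgHom.toRingHom_eq_coe, RingHom.coe_coe, h2, h3] at h1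
    rw [h1]
    rw [Algebra.smul_def, map_mul]
    rfl
  set f0 : ℤ[X] := X ^ 3 - C (3 * x0) * X + C (2 * y0) with hf0
  have hmon : f0.Monic := by
    rw [hf0]
    monicity!
  have hdeg : f0.natDegree = 3 := by
    rw [hf0]
    compute_degree!
  have hf0z : aeval z0 f0 = 0 := by
    rw [hf0]
    simp only [map_add, map_sub, map_mul, map_pow, aeval_X, aeval_C]
    simpa using hz0
  set R := P %ₘ f0 with hR
  have hPR : aeval z0 P = aeval z0 R := by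
    conv_lhs => rw [← Polynomial.modByMonic_add_div P f0]
    rw [map_add, map_mul, hf0z, zero_mul, add_zero]
  have hRdeg : R.natDegree < 3 := by
    have := Polynomial.natDegree_modByMonic_lt P hmon (by
      intro h1
      rw [h1] at hdeg
      simp at hdeg)
    rw [hdeg] at this
    exact this
  have hsum : aeval z0 R = (R.coeff 0 : ℝ) + R.coeff 1 * z0 + R.coeff 2 * z0 ^ 2 := by
    rw [Polynomial.aeval_eq_sum_range' hRdeg]
    simp [Finset.sum_range_succ]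
  refine ⟨Δ.den * R.coeff 0, Δ.den * R.coeff 1, Δ.den * R.coeff 2, ?_⟩
  have h4 : (Δ.num : ℝ) = (Δ.den : ℝ) * (Δ : ℝ) := by
    have := Rat.den_mul_eq_num Δ
    exact_mod_cast this.symm
  rw [h4, mul_assoc, ← hP2, hPR, hsum]
  push_cast
  ring

theorem integral (x y : ℤ) (z : ℝ) (hz : z ^ 3 - 3 * x * z + 2 * y = 0) : IsIntegral ℤ z := by
  refine ⟨X ^ 3 - C (3 * x) * X + C (2 * y), ?_, ?_⟩
  · monicity!
  · simp only [eval₂_add, eval₂_sub, eval₂_mul, eval₂_pow, eval₂_X, eval₂_C]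
    push_cast
    simpa using hz

/-- the identities -/
theorem ident (x0 y0 x y : ℤ) (z0 z : ℝ) (hz0 : z0 ^ 3 - 3 * x0 * z0 + 2 * y0 = 0)
    (hz : z ^ 3 - 3 * x * z + 2 * y = 0)
    (hno : ∀ r : ℚ, r ^ 3 - 3 * x * r + 2 * y ≠ 0) (D a' a b : ℤ) (hD : D ≠ 0)
    (h : (D : ℝ) * z = a' + a * z0 + b * z0 ^ 2) :
    (D : ℝ) * z = a * z0 + b * (z0 ^ 2 - 2 * x0) ∧
      (z0 ^ 2 - 4 * x0) * (D : ℝ) ^ 2 * (z ^ 2 - 4 * x) =
        ((z0 ^ 2 - 4 * x0) * a + (x0 * z0 + 2 * y0) * b) ^ 2 := by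
  obtain ⟨t, ht⟩ : ∃ t : ℤ, t = a' + 2 * x0 * b := ⟨_, rfl⟩
  obtain ⟨Xx, hX⟩ : ∃ Xx : ℤ, Xx = x0 * a ^ 2 - 2 * y0 * a * b + x0 ^ 2 * b ^ 2 := ⟨_, rfl⟩
  obtain ⟨Yy, hY⟩ : ∃ Yy : ℤ, Yy = y0 * a ^ 3 - 3 * x0 ^ 2 * a ^ 2 * b + 3 * x0 * y0 * a * b ^ 2 +
    (x0 ^ 3 - 2 * y0 ^ 2) * b ^ 3 := ⟨_, rfl⟩
  obtain ⟨w, hw⟩ : ∃ w : ℝ, w = a * z0 + b * (z0 ^ 2 - 2 * x0) := ⟨_, rfl⟩
  have hwD : w = D * z - t := by
    rw [hw, h, ht]
    push_cast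
    ring
  -- multiplication table
  obtain ⟨β, hβ⟩ : ∃ β : ℝ, β = z0 ^ 2 - 2 * x0 := ⟨_, rfl⟩
  have m1 : z0 * β = x0 * z0 - 2 * y0 := by rw [hβ]; linear_combination hz0
  have m2 : z0 ^ 2 = β + 2 * x0 := by rw [hβ]; ring
  have m3 : β ^ 2 = -x0 * β - 2 * y0 * z0 + 2 * x0 ^ 2 := by
    rw [hβ]
    linear_combination z0 * hz0
  have m4 : z0 ^ 2 * β = x0 * β - 2 * y0 * z0 + 2 * x0 ^ 2 := by
    linear_combination z0 * m1 + x0 * m2
  have m5 : z0 * β ^ 2 = x0 ^ 2 * z0 - 2 * y0 * β - 2 * x0 * y0 := by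
    linear_combination β * m1 + x0 * m1
  have m6 : β ^ 3 = 3 * x0 ^ 2 * β + 4 * y0 ^ 2 - 2 * x0 ^ 3 := by
    linear_combination (β - x0) * m3 - 2 * y0 * m1
  have m7 : z0 ^ 3 = 3 * x0 * z0 - 2 * y0 := by linear_combination hz0
  have hw3 : w ^ 3 - 3 * Xx * w + 2 * Yy = 0 := by
    rw [hw, ← hβ, hX, hY]
    push_cast
    linear_combination a ^ 3 * m7 + 3 * a ^ 2 * b * m4 + 3 * a * b ^ 2 * m5 + b ^ 3 * m6
  have hrel : ((-2 * D ^ 3 * y - t ^ 3 + 3 * Xx * t + 2 * Yy : ℤ) : ℚ) + 0 = 0 ∧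
      ((3 * D ^ 3 * x + 3 * D * t ^ 2 - 3 * Xx * D : ℤ) : ℚ) = 0 ∧
      ((-3 * D ^ 2 * t : ℤ) : ℚ) = 0 := by
    have := indep x y z hz hno ((-2 * D ^ 3 * y - t ^ 3 + 3 * Xx * t + 2 * Yy : ℤ) : ℚ)
      ((3 * D ^ 3 * x + 3 * D * t ^ 2 - 3 * Xx * D : ℤ) : ℚ) ((-3 * D ^ 2 * t : ℤ) : ℚ) (by
        push_cast
        rw [hwD] at hw3
        linear_combination hw3 - (D : ℝ) ^ 3 * hz)
    refine ⟨by rw [add_zero]; exact this.1, this.2.1, this.2.2⟩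
  have ht0 : t = 0 := by
    have h1 : (-3 * D ^ 2 * t : ℤ) = 0 := by exact_mod_cast hrel.2.2
    have h2 : (-3 * D ^ 2 : ℤ) ≠ 0 := mul_ne_zero (by norm_num) (pow_ne_zero 2 hD)
    exact (mul_eq_zero.1 h1).resolve_left h2
  have hXx : D ^ 2 * x = Xx := by
    have h1 : (3 * D ^ 3 * x + 3 * D * t ^ 2 - 3 * Xx * D : ℤ) = 0 := by exact_mod_cast hrel.2.1
    rw [ht0] at h1
    have h2 : (3 * D) * (D ^ 2 * x - Xx) = 0 := by linarith
    have h3 : (3 * D) ≠ 0 := mul_ne_zero (by norm_num) hD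
    linarith [(mul_eq_zero.1 h2).resolve_left h3]
  have hwz : (D : ℝ) * z = w := by
    rw [hwD, ht0]
    simp
  refine ⟨by rw [hwz, hw], ?_⟩
  have hXR : (D : ℝ) ^ 2 * x = x0 * a ^ 2 - 2 * y0 * a * b + x0 ^ 2 * b ^ 2 := by
    have := hXx.trans hX
    exact_mod_cast this
  have e1 : (z0 ^ 2 - 4 * x0) * (D : ℝ) ^ 2 * (z ^ 2 - 4 * x) =
      (z0 ^ 2 - 4 * x0) * (((D : ℝ) * z) ^ 2 - 4 * ((D : ℝ) ^ 2 * x)) := by ring
  rw [e1, hwz, hXR, hw]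
  linear_combination (2 * a * b * (z0 ^ 2 - 4 * x0) +
    b ^ 2 * (z0 ^ 3 - 5 * x0 * z0 - 2 * y0)) * hz0

end Pool.Agent.W683.HL
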