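import Pool.Agent.W683.HL.HwA

/-! HL-HW, the constant of one field. -/

set_option autoImplicit false

namespace Pool.Agent.W683.HL

open Polynomial IntermediateField

/-- Roth's theorem -/
def Roth : Prop := ∀ α : ℝ, IsAlgebraic ℚ α → Irrational α → ∀ η : ℝ, 0 < η →
  ∃ c : ℝ, 0 < c ∧ ∀ q : ℕ, 1 ≤ q → ∀ p : ℤ, c ≤ (q : ℝ) ^ (1 + η) * |q * α - p|

theorem four_k (x y : ℤ) (z : ℝ) (hz : z ^ 3 - 3 * x * z + 2 * y = 0) :
    4 * ((y : ℝ) ^ 2 - (x : ℝ) ^ 3) = (z ^ 2 - x) ^ 2 * (z ^ 2 - 4 * x) := by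
  linear_combination (2 * (y : ℝ) + 3 * x * z - z ^ 3) * hz

theorem roth_ab (α c ε : ℝ) (hR : ∀ q : ℕ, 1 ≤ q → ∀ p : ℤ, c ≤ (q : ℝ) ^ (1 + ε) * |q * α - p|)
    (a b : ℤ) (hb : b ≠ 0) : c ≤ |(b : ℝ)| ^ (1 + ε) * |a + α * b| := by
  have h1 : ((b.natAbs : ℕ) : ℝ) = |(b : ℝ)| := by
    rw [Nat.cast_natAbs, Int.cast_abs]
  have hq : 1 ≤ b.natAbs := Int.natAbs_pos.2 hb
  rcases lt_or_gt_of_ne hb with hneg | hpos
  · have := hR b.natAbs hq a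
    rw [h1] at this
    have hbR : (b : ℝ) < 0 := by exact_mod_cast hneg
    have e : |(b : ℝ)| * α - (a : ℝ) = -(a + α * b) := by
      rw [abs_of_neg hbR]
      ring
    rw [e, abs_neg] at this
    exact this
  · have := hR b.natAbs hq (-a)
    rw [h1] at this
    have hbR : (0 : ℝ) < b := by exact_mod_cast hpos
    have e : |(b : ℝ)| * α - ((-a : ℤ) : ℝ) = (a + α * b) := by
      rw [abs_of_pos hbR]
      push_cast
      ring
    rw [e] at this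
    exact this

theorem field_const (hRoth : Roth) (x0 y0 : ℤ) (z0 : ℝ) (hx0 : 1 ≤ x0)
    (hz0 : z0 ^ 3 - 3 * x0 * z0 + 2 * y0 = 0)
    (hno0 : ∀ r : ℚ, r ^ 3 - 3 * x0 * r + 2 * y0 ≠ 0) (ε : ℝ) (hε : 0 < ε) :
    ∃ c : ℝ, 0 < c ∧ ∀ (x y : ℤ) (z : ℝ), 1 ≤ x → z ^ 3 - 3 * x * z + 2 * y = 0 →
      (∀ r : ℚ, r ^ 3 - 3 * x * r + 2 * y ≠ 0) → 3 * x ≤ z ^ 2 → z ^ 2 ≤ 9 * x →
      z ∈ ℚ⟮z0⟯ → c * (x : ℝ) ^ (1 - ε) ≤ |((y ^ 2 - x ^ 3 : ℤ) : ℝ)| := by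
  have hx0Q : (x0 : ℚ) ≠ 0 := by
    have : x0 ≠ 0 := by omega
    exact_mod_cast this
  obtain ⟨D, hD0, hD⟩ := denom x0 y0 z0 hz0
  have hDR : (D : ℝ) ≠ 0 := by exact_mod_cast hD0
  obtain ⟨δ, hδ⟩ : ∃ δ : ℝ, δ = z0 ^ 2 - 4 * x0 := ⟨_, rfl⟩
  obtain ⟨κ, hκ⟩ : ∃ κ : ℝ, κ = x0 * z0 + 2 * y0 := ⟨_, rfl⟩
  obtain ⟨ν, hν⟩ : ∃ ν : ℝ, ν = -4 * (x0 * z0 ^ 2 + y0 * z0 - 2 * x0 ^ 2) := ⟨_, rfl⟩
  have hδ0 : δ ≠ 0 := by
    intro h
    have := indep x0 y0 z0 hz0 hno0 (-4 * x0) 0 1 (by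
      push_cast
      rw [hδ] at h
      linarith)
    exact one_ne_zero this.2.2
  have hν0 : ν ≠ 0 := by
    intro h
    have := indep x0 y0 z0 hz0 hno0 (-2 * x0 ^ 2) y0 x0 (by
      push_cast
      rw [hν] at h
      linarith)
    exact hx0Q this.2.2
  obtain ⟨α, hα⟩ : ∃ α : ℝ, α = κ / δ := ⟨_, rfl⟩
  have hαδ : α * δ = κ := by rw [hα]; field_simp
  have halg : IsAlgebraic ℚ α := by
    have hz0a : z0 ∈ algebraicClosure ℚ ℝ := by
      rw [mem_algebraicClosure_iff]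
      exact ((integral x0 y0 z0 hz0).tower_top (A := ℚ)).isAlgebraic
    have h1 : α ∈ algebraicClosure ℚ ℝ := by
      rw [hα, hκ, hδ]
      refine div_mem (add_mem (mul_mem (intCast_mem _ _) hz0a)
        (mul_mem (ofNat_mem _ _) (intCast_mem _ _)))
        (sub_mem (pow_mem hz0a 2) (mul_mem (ofNat_mem _ _) (intCast_mem _ _)))
    exact mem_algebraicClosure_iff.1 h1
  have hirr : Irrational α := by
    rintro ⟨r, hr⟩
    have := indep x0 y0 z0 hz0 hno0 (2 * y0 + 4 * x0 * r) x0 (-r) (by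
      push_cast
      rw [← hr, hδ, hκ] at hαδ
      linarith)
    exact hx0Q this.2.1
  obtain ⟨c, hc, hR⟩ := hRoth α halg hirr ε hε
  obtain ⟨C1, hC1⟩ : ∃ C1 : ℝ, C1 = (3 * |δ| * |(D : ℝ)| +
    |z0| * (|(D : ℝ)| * Real.sqrt (5 * |δ|))) / |ν| + 1 := ⟨_, rfl⟩
  have hC10 : 0 < C1 := by rw [hC1]; positivity
  obtain ⟨E, hE⟩ : ∃ E : ℝ, E = C1 ^ (2 * (1 + ε)) := ⟨_, rfl⟩
  have hE0 : 0 < E := by rw [hE]; positivity
  have hδa : 0 < |δ| := abs_pos.2 hδ0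
  refine ⟨min (|δ| / (D : ℝ) ^ 2) (|δ| * c ^ 2 / ((D : ℝ) ^ 2 * E)), by positivity, ?_⟩
  intro x y z hx hz hno hz3 hz9 hmem
  have hxR : (1 : ℝ) ≤ x := by exact_mod_cast hx
  have hx0' : (0 : ℝ) < x := by linarith
  obtain ⟨a', a, b, hab⟩ := hD z hmem (integral x y z hz)
  obtain ⟨hw, hA⟩ := ident x0 y0 x y z0 z hz0 hz hno D a' a b hD0 hab
  rw [← hδ, ← hκ] at hA
  obtain ⟨A, hAd⟩ : ∃ A : ℝ, A = δ * a + κ * b := ⟨_, rfl⟩
  rw [← hAd] at hA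
  obtain ⟨g, hg⟩ : ∃ g : ℝ, g = |z ^ 2 - 4 * x| := ⟨_, rfl⟩
  have hg0 : 0 ≤ g := by rw [hg]; positivity
  have hg5 : g ≤ 5 * x := by
    rw [hg, abs_le]
    constructor <;> linarith
  have hAg : |δ| * (D : ℝ) ^ 2 * g = A ^ 2 := by
    have h1 : |δ * (D : ℝ) ^ 2 * (z ^ 2 - 4 * x)| = |A ^ 2| := by rw [hA]
    rw [abs_mul, abs_mul, abs_of_nonneg (sq_nonneg (D : ℝ)), abs_of_nonneg (sq_nonneg A), ← hg] at h1
    exact h1
  have hk : (x : ℝ) ^ 2 * g ≤ |((y ^ 2 - x ^ 3 : ℤ) : ℝ)| := by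
    have h1 : |4 * ((y : ℝ) ^ 2 - (x : ℝ) ^ 3)| = (z ^ 2 - x) ^ 2 * g := by
      rw [four_k x y z hz, abs_mul, abs_of_nonneg (sq_nonneg _), ← hg]
    have h2 : |4 * ((y : ℝ) ^ 2 - (x : ℝ) ^ 3)| = 4 * |((y ^ 2 - x ^ 3 : ℤ) : ℝ)| := by
      rw [abs_mul]
      push_cast
      norm_num
    have h3 : 4 * (x : ℝ) ^ 2 ≤ (z ^ 2 - x) ^ 2 := by nlinarith
    have h4 : 4 * (x : ℝ) ^ 2 * g ≤ (z ^ 2 - x) ^ 2 * g := mul_le_mul_of_nonneg_right h3 hg0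
    rw [← h1, h2] at h4
    linarith
  have hD2 : 0 < (D : ℝ) ^ 2 := by positivity
  have hpow : (0 : ℝ) < (x : ℝ) ^ (1 - ε) := by positivity
  by_cases hb : b = 0
  · -- the case b = 0
    subst hb
    have ha : a ≠ 0 := by
      rintro rfl
      simp only [Int.cast_zero, zero_mul, add_zero] at hw
      have hz00 : z = 0 := (mul_eq_zero.1 hw).resolve_left hDR
      rw [hz00] at hz3
      simp at hz3
      linarith
    have ha1 : (1 : ℝ) ≤ (a : ℝ) ^ 2 := by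
      have : 1 ≤ a ^ 2 := by
        have := sq_nonneg a
        have h2 : a ^ 2 ≠ 0 := pow_ne_zero 2 ha
        omega
      exact_mod_cast this
    have hA2 : |δ| ^ 2 ≤ A ^ 2 := by
      rw [hAd, sq_abs]
      simp only [Int.cast_zero, mul_zero, add_zero]
      rw [mul_pow]
      nlinarith [sq_nonneg δ]
    have hgl : |δ| / (D : ℝ) ^ 2 ≤ g := by
      rw [div_le_iff₀ hD2]
      have h1 : |δ| * |δ| ≤ |δ| * ((D : ℝ) ^ 2 * g) := by
        calc |δ| * |δ| = |δ| ^ 2 := by ring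
          _ ≤ A ^ 2 := hA2
          _ = _ := by rw [← hAg]; ring
      have := le_of_mul_le_mul_left h1 hδa
      linarith
    have hxx : (x : ℝ) ^ (1 - ε) ≤ (x : ℝ) ^ 2 := by
      rw [← Real.rpow_natCast]
      exact Real.rpow_le_rpow_of_exponent_le hxR (by push_cast; linarith)
    calc _ ≤ (|δ| / (D : ℝ) ^ 2) * (x : ℝ) ^ (1 - ε) :=
          mul_le_mul_of_nonneg_right (min_le_left _ _) hpow.le
      _ ≤ g * (x : ℝ) ^ 2 := mul_le_mul hgl hxx hpow.le hg0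
      _ = (x : ℝ) ^ 2 * g := mul_comm _ _
      _ ≤ _ := hk
  · -- the main case
    have hroth := roth_ab α c ε hR a b hb
    have hAα : A = δ * (a + α * b) := by rw [hAd, ← hαδ]; ring
    have hz3' : |z| ≤ 3 * Real.sqrt x := by
      apply abs_le_of_sq_le_sq _ (by positivity)
      rw [mul_pow, Real.sq_sqrt hx0'.le]
      linarith
    have hAb : |A| ≤ |(D : ℝ)| * Real.sqrt (5 * |δ|) * Real.sqrt x := by
      apply abs_le_of_sq_le_sq _ (by positivity)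
      rw [mul_pow, mul_pow, Real.sq_sqrt hx0'.le, Real.sq_sqrt (by positivity), sq_abs, ← hAg]
      have : |δ| * (D : ℝ) ^ 2 * g ≤ |δ| * (D : ℝ) ^ 2 * (5 * x) :=
        mul_le_mul_of_nonneg_left hg5 (by positivity)
      linarith
    have hbν : (b : ℝ) * ν = δ * (D * z) - z0 * A := by
      rw [hw, hAd, hν, hδ, hκ]
      linear_combination (-(b : ℝ) * z0) * hz0
    have hbC : |(b : ℝ)| ≤ C1 * Real.sqrt x := by
      have hνa : 0 < |ν| := abs_pos.2 hν0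
      have h1 : |(b : ℝ)| * |ν| ≤ (3 * |δ| * |(D : ℝ)| +
          |z0| * (|(D : ℝ)| * Real.sqrt (5 * |δ|))) * Real.sqrt x := by
        rw [← abs_mul, hbν]
        refine (abs_sub _ _).trans ?_
        rw [abs_mul, abs_mul, abs_mul]
        have h2 : |δ| * (|(D : ℝ)| * |z|) ≤ |δ| * (|(D : ℝ)| * (3 * Real.sqrt x)) := by gcongr
        have h3 : |z0| * |A| ≤ |z0| * (|(D : ℝ)| * Real.sqrt (5 * |δ|) * Real.sqrt x) := by gcongr
        linarith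
      have h2 : |(b : ℝ)| ≤ ((3 * |δ| * |(D : ℝ)| +
          |z0| * (|(D : ℝ)| * Real.sqrt (5 * |δ|))) / |ν|) * Real.sqrt x := by
        rw [div_mul_eq_mul_div, le_div_iff₀ hνa]
        exact h1
      rw [hC1]
      have h3 : 0 ≤ Real.sqrt (x : ℝ) := Real.sqrt_nonneg _
      linarith
    obtain ⟨s, hs⟩ : ∃ s : ℝ, s = (C1 * Real.sqrt x) ^ (1 + ε) := ⟨_, rfl⟩
    have hs0 : 0 < s := by rw [hs]; positivity
    have h1 : c ≤ s * |a + α * b| := by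
      refine hroth.trans ?_
      apply mul_le_mul_of_nonneg_right _ (abs_nonneg _)
      rw [hs]
      exact Real.rpow_le_rpow (abs_nonneg _) hbC (by linarith)
    have h2 : c ^ 2 ≤ s ^ 2 * (a + α * b) ^ 2 := by
      have := pow_le_pow_left₀ hc.le h1 2
      rw [mul_pow, sq_abs] at this
      exact this
    have hs2 : s ^ 2 = E * (x : ℝ) ^ (1 + ε) := by
      rw [hs, hE, ← Real.rpow_natCast, ← Real.rpow_mul (by positivity),
        Real.mul_rpow hC10.le (Real.sqrt_nonneg _), Real.sqrt_eq_rpow,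
        ← Real.rpow_mul hx0'.le]
      congr 1
      · congr 1
        push_cast
        ring
      · congr 1
        push_cast
        ring
    have hxs : (x : ℝ) ^ 2 = (x : ℝ) ^ (1 - ε) * (x : ℝ) ^ (1 + ε) := by
      rw [← Real.rpow_add hx0', ← Real.rpow_natCast]
      congr 1
      push_cast
      ring
    have hxp : 0 < (x : ℝ) ^ (1 + ε) := by positivity
    -- A² = δ² (a + α b)²
    have hA2 : A ^ 2 = |δ| ^ 2 * (a + α * b) ^ 2 := by rw [hAα, mul_pow, sq_abs]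
    have h3 : |δ| * (c ^ 2) ≤ (D : ℝ) ^ 2 * g * (E * (x : ℝ) ^ (1 + ε)) := by
      rw [← hs2]
      have h4 : |δ| * ((D : ℝ) ^ 2 * g) = |δ| * (|δ| * (a + α * b) ^ 2) := by
        calc |δ| * ((D : ℝ) ^ 2 * g) = |δ| * (D : ℝ) ^ 2 * g := by ring
          _ = A ^ 2 := hAg
          _ = _ := by rw [hA2]; ring
      have h5 : (D : ℝ) ^ 2 * g = |δ| * (a + α * b) ^ 2 := mul_left_cancel₀ hδa.ne' h4
      rw [h5]
      calc |δ| * c ^ 2 ≤ |δ| * (s ^ 2 * (a + α * b) ^ 2) := mul_le_mul_of_nonneg_left h2 hδa.le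
        _ = _ := by ring
    have h6 : |δ| * c ^ 2 / ((D : ℝ) ^ 2 * E) * (x : ℝ) ^ (1 - ε) ≤ (x : ℝ) ^ 2 * g := by
      rw [div_mul_eq_mul_div, div_le_iff₀ (by positivity), hxs]
      calc |δ| * c ^ 2 * (x : ℝ) ^ (1 - ε) ≤
            ((D : ℝ) ^ 2 * g * (E * (x : ℝ) ^ (1 + ε))) * (x : ℝ) ^ (1 - ε) :=
            mul_le_mul_of_nonneg_right h3 hpow.le
        _ = _ := by ring
    calc _ ≤ (|δ| * c ^ 2 / ((D : ℝ) ^ 2 * E)) * (x : ℝ) ^ (1 - ε) :=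
          mul_le_mul_of_nonneg_right (min_le_right _ _) hpow.le
      _ ≤ _ := h6
      _ ≤ _ := hk

end Pool.Agent.W683.HL
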