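import Pool.Agent.W683.HL.HwB
import Pool.Agent.W257.HL.Stm
import Pool.Agent.W472.AC.RothThm

/-! HL-HW: assembly. -/

set_option autoImplicit false

namespace Pool.Agent.W683.HL

open Polynomial IntermediateField

theorem roth_holds : Roth := fun α hα hirr η hη => Pool.Agent.W472.AC.roth α hα hirr η hη

theorem per_field (hRoth : Roth) (M : IntermediateField ℚ ℝ) (ε : ℝ) (hε : 0 < ε) :
    ∃ c : ℝ, 0 < c ∧ ∀ (x y : ℤ) (z : ℝ), 1 ≤ x → z ^ 3 - 3 * x * z + 2 * y = 0 →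
      (∀ r : ℚ, r ^ 3 - 3 * x * r + 2 * y ≠ 0) → 3 * x ≤ z ^ 2 → z ^ 2 ≤ 9 * x →
      ℚ⟮z⟯ = M → c * (x : ℝ) ^ (1 - ε) ≤ |((y ^ 2 - x ^ 3 : ℤ) : ℝ)| := by
  by_cases h : ∃ (x0 y0 : ℤ) (z0 : ℝ), 1 ≤ x0 ∧ z0 ^ 3 - 3 * x0 * z0 + 2 * y0 = 0 ∧
      (∀ r : ℚ, r ^ 3 - 3 * x0 * r + 2 * y0 ≠ 0) ∧ ℚ⟮z0⟯ = M
  · obtain ⟨x0, y0, z0, hx0, hz0, hno0, hM⟩ := h
    obtain ⟨c, hc, hcall⟩ := field_const hRoth x0 y0 z0 hx0 hz0 hno0 ε hε
    refine ⟨c, hc, fun x y z hx hz hno h3 h9 hMz => hcall x y z hx hz hno h3 h9 ?_⟩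
    rw [hM, ← hMz]
    exact IntermediateField.mem_adjoin_simple_self ℚ z
  · refine ⟨1, one_pos, fun x y z hx hz hno h3 h9 hMz => ?_⟩
    exact absurd ⟨x, y, z, hx, hz, hno, hMz⟩ h

theorem finite_below (L : IntermediateField ℚ ℝ) (hL : FiniteDimensional ℚ L) :
    {M : IntermediateField ℚ ℝ | M ≤ L}.Finite := by
  have : FiniteDimensional ℚ L := hL
  have : Finite (IntermediateField ℚ L) :=
    Field.finite_intermediateField_of_exists_primitive_element ℚ L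
      (Field.exists_primitive_element ℚ L)
  refine (Set.finite_range (fun K : IntermediateField ℚ L => IntermediateField.lift K)).subset ?_
  intro M hM
  exact ⟨IntermediateField.restrict hM, IntermediateField.lift_restrict hM⟩

theorem unif (hRoth : Roth) (L : IntermediateField ℚ ℝ) (hL : FiniteDimensional ℚ L) (ε : ℝ)
    (hε : 0 < ε) :
    ∃ c : ℝ, 0 < c ∧ ∀ (x y : ℤ) (z : ℝ), 1 ≤ x → z ^ 3 - 3 * x * z + 2 * y = 0 →
      (∀ r : ℚ, r ^ 3 - 3 * x * r + 2 * y ≠ 0) → 3 * x ≤ z ^ 2 → z ^ 2 ≤ 9 * x →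
      z ∈ L → c * (x : ℝ) ^ (1 - ε) ≤ |((y ^ 2 - x ^ 3 : ℤ) : ℝ)| := by
  choose c hc hcall using fun M : IntermediateField ℚ ℝ => per_field hRoth M ε hε
  obtain ⟨B, hB⟩ := ((finite_below L hL).image (fun M => (c M)⁻¹)).bddAbove
  have hB1 : 0 < max B 1 := lt_of_lt_of_le one_pos (le_max_right _ _)
  refine ⟨(max B 1)⁻¹, inv_pos.2 hB1, fun x y z hx hz hno h3 h9 hzL => ?_⟩
  have hle : ℚ⟮z⟯ ≤ L := IntermediateField.adjoin_simple_le_iff.2 hzL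
  have h1 : (c ℚ⟮z⟯)⁻¹ ≤ max B 1 := le_trans (hB ⟨ℚ⟮z⟯, hle, rfl⟩) (le_max_left _ _)
  have h2 : (max B 1)⁻¹ ≤ c ℚ⟮z⟯ := by
    rw [inv_le_comm₀ hB1 (hc _)]
    exact h1
  have hxp : 0 ≤ (x : ℝ) ^ (1 - ε) := by
    apply Real.rpow_nonneg
    have : (1 : ℝ) ≤ x := by exact_mod_cast hx
    linarith
  exact le_trans (mul_le_mul_of_nonneg_right h2 hxp) (hcall ℚ⟮z⟯ x y z hx hz hno h3 h9 rfl)

theorem four_k_int (x y r : ℤ) (hr : r ^ 3 - 3 * x * r + 2 * y = 0) :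
    4 * (y ^ 2 - x ^ 3) = (r ^ 2 - x) ^ 2 * (r ^ 2 - 4 * x) := by
  linear_combination (2 * y + 3 * x * r - r ^ 3) * hr

theorem rat_root_int (x y : ℤ) (r : ℚ) (hr : r ^ 3 - 3 * x * r + 2 * y = 0) :
    ∃ n : ℤ, r = n := by
  have hint : IsIntegral ℤ r := by
    refine ⟨X ^ 3 + (C (-3 * x) * X + C (2 * y)), ?_, ?_⟩
    · apply Polynomial.monic_X_pow_add
      refine lt_of_le_of_lt (Polynomial.degree_linear_le) ?_
      norm_num
    · rw [Polynomial.eval₂_add, Polynomial.eval₂_add, Polynomial.eval₂_mul]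
      simp only [Polynomial.eval₂_pow, Polynomial.eval₂_X, Polynomial.eval₂_C]
      simp
      linear_combination hr
  obtain ⟨n, hn⟩ := IsIntegrallyClosed.isIntegral_iff.1 hint
  exact ⟨n, by rw [← hn]; simp⟩

/-- the case of an integer root -/
theorem int_root (x y r : ℤ) (hx : 1 ≤ x) (hne : y ^ 2 ≠ x ^ 3)
    (hr : r ^ 3 - 3 * x * r + 2 * y = 0) : x ≤ 4 * |y ^ 2 - x ^ 3| := by
  have h4 := four_k_int x y r hr
  have hk : y ^ 2 - x ^ 3 ≠ 0 := sub_ne_zero.2 hne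
  have hA : (r ^ 2 - x) ^ 2 * (r ^ 2 - 4 * x) ≠ 0 := by
    rw [← h4]
    exact mul_ne_zero (by norm_num) hk
  have ha : (r ^ 2 - x) ≠ 0 := fun h => hA (by rw [h]; ring)
  have hb : (r ^ 2 - 4 * x) ≠ 0 := fun h => hA (by rw [h]; ring)
  have e : 4 * |y ^ 2 - x ^ 3| = (r ^ 2 - x) ^ 2 * |r ^ 2 - 4 * x| := by
    have : |(4 : ℤ) * (y ^ 2 - x ^ 3)| = |(r ^ 2 - x) ^ 2 * (r ^ 2 - 4 * x)| := by rw [h4]
    rw [abs_mul, abs_mul, abs_of_pos (by norm_num : (0 : ℤ) < 4), abs_of_nonneg (sq_nonneg (r ^ 2 - x))] at this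
    exact this
  rw [e]
  have hb1 : 1 ≤ |r ^ 2 - 4 * x| := Int.one_le_abs hb
  have ha1 : 1 ≤ (r ^ 2 - x) ^ 2 := by
    have : 0 < (r ^ 2 - x) ^ 2 := by positivity
    omega
  rcases le_or_gt (2 * x) (r ^ 2) with h | h
  · have h1 : x ≤ r ^ 2 - x := by omega
    have h2 : x ^ 2 ≤ (r ^ 2 - x) ^ 2 := by nlinarith
    have h3 : x ≤ x ^ 2 := by nlinarith
    nlinarith
  · have h1 : 2 * x ≤ |r ^ 2 - 4 * x| := by
      rw [abs_of_neg (by omega)]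
      omega
    nlinarith

/-- a root with `3 x ≤ z ^ 2 ≤ 9 x` -/
theorem exists_root (x y : ℝ) (hx : 1 ≤ x) (hy : 0 ≤ y) (hyx : y ^ 2 ≤ 4 * x ^ 3) :
    ∃ z : ℝ, z ^ 3 - 3 * x * z + 2 * y = 0 ∧ 3 * x ≤ z ^ 2 ∧ z ^ 2 ≤ 9 * x := by
  obtain ⟨s, hs⟩ : ∃ s : ℝ, s = Real.sqrt x := ⟨_, rfl⟩
  obtain ⟨t, ht⟩ : ∃ t : ℝ, t = Real.sqrt (3 * x) := ⟨_, rfl⟩
  have hs2 : s ^ 2 = x := by rw [hs]; exact Real.sq_sqrt (by linarith)
  have ht2 : t ^ 2 = 3 * x := by rw [ht]; exact Real.sq_sqrt (by linarith)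
  have hs0 : 0 ≤ s := by rw [hs]; exact Real.sqrt_nonneg _
  have ht0 : 0 ≤ t := by rw [ht]; exact Real.sqrt_nonneg _
  have hts : t ≤ 3 * s := by
    apply abs_le_of_sq_le_sq' _ (by linarith) |>.2
    nlinarith
  have hle : -(3 * s) ≤ -t := by linarith
  have hcont : ContinuousOn (fun z : ℝ => z ^ 3 - 3 * x * z + 2 * y) (Set.Icc (-(3 * s)) (-t)) := by
    fun_prop
  have hys : y ≤ 2 * s ^ 3 := by
    apply abs_le_of_sq_le_sq' _ (by positivity) |>.2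
    have : (2 * s ^ 3) ^ 2 = 4 * x ^ 3 := by rw [← hs2]; ring
    linarith
  have hA : (-(3 * s)) ^ 3 - 3 * x * (-(3 * s)) + 2 * y ≤ 0 := by
    rw [← hs2]
    have : 0 ≤ s ^ 3 := by positivity
    nlinarith
  have hB : 0 ≤ (-t) ^ 3 - 3 * x * (-t) + 2 * y := by
    rw [← ht2]
    nlinarith
  obtain ⟨z, ⟨hz1, hz2⟩, hz⟩ := intermediate_value_Icc hle hcont (show (0 : ℝ) ∈ Set.Icc _ _ from ⟨hA, hB⟩)
  refine ⟨z, hz, ?_, ?_⟩
  · rw [← ht2]
    nlinarith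
  · have : z ^ 2 ≤ (3 * s) ^ 2 := by nlinarith
    nlinarith

theorem rpow_le_self' (x ε : ℝ) (hx : 1 ≤ x) (hε : 0 < ε) : x ^ (1 - ε) ≤ x := by
  calc x ^ (1 - ε) ≤ x ^ (1 : ℝ) := Real.rpow_le_rpow_of_exponent_le hx (by linarith)
    _ = x := Real.rpow_one x

theorem hw : Pool.Agent.W257.HL.S_HW := by
  intro L hL ε hε
  obtain ⟨c0, hc0, hall⟩ := unif roth_holds L hL ε hε
  obtain ⟨c, hc, hc1, hc2⟩ : ∃ c : ℝ, 0 < c ∧ c ≤ c0 ∧ c ≤ 1 / 4 :=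
    ⟨min c0 (1 / 4), lt_min hc0 (by norm_num), min_le_left _ _, min_le_right _ _⟩
  refine ⟨c, hc, ?_⟩
  -- the case of nonnegative `y`
  have main : ∀ x y : ℤ, 0 ≤ y → y ^ 2 ≠ x ^ 3 →
      (∀ z : ℝ, z ^ 3 - 3 * x * z + 2 * y = 0 → z ∈ L) →
      c * |(x : ℝ)| ^ (1 - ε) ≤ |((y ^ 2 - x ^ 3 : ℤ) : ℝ)| := by
    intro x y hy hne hroots
    have hk1 : (1 : ℝ) ≤ |((y ^ 2 - x ^ 3 : ℤ) : ℝ)| := by
      have : 1 ≤ |y ^ 2 - x ^ 3| := Int.one_le_abs (sub_ne_zero.2 hne)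
      exact_mod_cast this
    rcases eq_or_ne x 0 with hx0 | hx0
    · have : |(x : ℝ)| ^ (1 - ε) ≤ 1 := by
        rw [hx0]
        simp only [Int.cast_zero, abs_zero]
        exact Real.zero_rpow_le_one _
      nlinarith
    have hxa : (1 : ℝ) ≤ |(x : ℝ)| := by
      have : 1 ≤ |x| := Int.one_le_abs hx0
      exact_mod_cast this
    have hp := rpow_le_self' |(x : ℝ)| ε hxa hε
    have hp0 : 0 ≤ |(x : ℝ)| ^ (1 - ε) := Real.rpow_nonneg (abs_nonneg _) _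
    -- enough: |x| ≤ 4 |k|
    have enough : |x| ≤ 4 * |y ^ 2 - x ^ 3| →
        c * |(x : ℝ)| ^ (1 - ε) ≤ |((y ^ 2 - x ^ 3 : ℤ) : ℝ)| := by
      intro h
      have h' : |(x : ℝ)| ≤ 4 * |((y ^ 2 - x ^ 3 : ℤ) : ℝ)| := by exact_mod_cast h
      have h2 : c * |(x : ℝ)| ^ (1 - ε) ≤ 1 / 4 * |(x : ℝ)| ^ (1 - ε) :=
        mul_le_mul_of_nonneg_right hc2 hp0
      linarith
    rcases lt_or_gt_of_ne hx0 with hneg | hpos
    · apply enough
      have h1 : 0 < y ^ 2 - x ^ 3 := by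
        have : x ^ 3 < 0 := by
          have := pow_pos (neg_pos.2 hneg) 3
          nlinarith
        nlinarith
      rw [abs_of_neg hneg, abs_of_pos h1]
      have h3 : -x ≤ -x ^ 3 := by nlinarith [sq_nonneg x, mul_pos (neg_pos.2 hneg) (neg_pos.2 hneg)]
      nlinarith
    · have hx1 : 1 ≤ x := by omega
      rcases lt_or_ge (4 * x ^ 3) (y ^ 2) with hbig | hsmall
      · apply enough
        have hx3 : x ≤ x ^ 3 := by nlinarith [mul_pos hpos hpos]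
        have h1 : 0 < y ^ 2 - x ^ 3 := by nlinarith
        rw [abs_of_pos hpos, abs_of_pos h1]
        nlinarith
      · by_cases hrat : ∃ r : ℚ, r ^ 3 - 3 * x * r + 2 * y = 0
        · obtain ⟨r, hr⟩ := hrat
          obtain ⟨n, hn⟩ := rat_root_int x y r hr
          apply enough
          rw [abs_of_pos hpos]
          refine int_root x y n hx1 hne ?_
          rw [hn] at hr
          exact_mod_cast hr
        · have hno : ∀ r : ℚ, r ^ 3 - 3 * x * r + 2 * y ≠ 0 := fun r hr => hrat ⟨r, hr⟩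
          obtain ⟨z, hz, h3, h9⟩ := exists_root (x : ℝ) (y : ℝ) (by exact_mod_cast hx1)
            (by exact_mod_cast hy) (by exact_mod_cast hsmall)
          have := hall x y z hx1 hz hno h3 h9 (hroots z hz)
          have hxR : (0 : ℝ) < x := by exact_mod_cast hpos
          rw [abs_of_pos hxR]
          rw [abs_of_pos hxR] at hp0
          exact le_trans (mul_le_mul_of_nonneg_right hc1 hp0) this
  intro x y hne hroots
  rcases le_or_gt 0 y with hy | hy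
  · exact main x y hy hne hroots
  · have := main x (-y) (by omega) (by rw [neg_sq]; exact hne) (by
      intro z hz
      have h1 : (-z) ^ 3 - 3 * (x : ℝ) * (-z) + 2 * (y : ℝ) = 0 := by
        push_cast at hz
        linear_combination -hz
      have := L.neg_mem (hroots (-z) h1)
      rwa [neg_neg] at this)
    rw [neg_sq] at this
    exact this

end Pool.Agent.W683.HL
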